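import Pool.Agent.H830Z.ER.Main

/-!
A pattern of `K_4` and `r > r₁(P)` whose extremal graphs are unbalanced for infinitely many `n`.
-/

open Pool.Agent.H830Z.ER in
theorem Pool.Agent.Results.MP_6a4ab5_co.NotEquitable.result :
    P4 ≠ ⊥ ∧ P4 ≠ ⊤ ∧
    (∀ r, 393216 ≤ r → ∀ n, 400 ≤ n → ¬ Extremal r P4 (SimpleGraph.turanGraph n 3)) ∧
    rOne P4 < 393217 ∧
    ∀ N, ∃ n, N ≤ n ∧
      (∃ G : SimpleGraph (Fin n),
        Extremal 393217 P4 G ∧ G.IsCompleteMultipartite ∧ ¬ Equitable G) ∧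
      ∀ G : SimpleGraph (Fin n),
        G.IsCompleteMultipartite → Equitable G → ¬ Extremal 393217 P4 G :=
  ⟨P4_ne_bot, P4_ne_top, fun _ hr _ hn => turan_not_extremal hr hn, rOne_lt, main⟩
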